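import Mathlib

/-!
# Maximum-likelihood DPP kernels may need a large rank

For every `k ≥ 2`, consider the ground set of `k + 1` elements and the training set in which the
empty set occurs `k + 1` times and each `k`-element subset occurs once. Every optimal marginal
kernel has rank `k + 1`.

Proof: for a kernel of rank at most `k` with eigenvalues `λ₁, …, λₖ, 0`, the probability of the empty
set is `∏ (1 - λᵢ)` and the probability to have `k` points is `∏ λᵢ`, and so their product is at most
`4⁻ᵏ` and the likelihood is at most `(4⁻ᵏ / (k + 1)) ^ (k + 1)`. The kernel `p I` with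
`p = k / (2 k + 2)` has a larger likelihood.
-/

open Matrix Finset

namespace Pool.Agent.Results.MP_dbbe21_pr.RankTooLarge

/-- A marginal kernel: a real symmetric matrix whose eigenvalues all lie in `[0, 1]`. -/
def IsMarginalKernel {N : ℕ} (K : Matrix (Fin N) (Fin N) ℝ) : Prop :=
  ∃ h : K.IsHermitian, ∀ i, h.eigenvalues i ∈ Set.Icc (0 : ℝ) 1

/-- The principal minor `det (K_S)`. -/
noncomputable def minor {N : ℕ} (K : Matrix (Fin N) (Fin N) ℝ) (S : Finset (Fin N)) : ℝ :=
  (K.submatrix (fun i : S => (i : Fin N)) (fun i : S => (i : Fin N))).det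

/-- `μ` is the law of the determinantal point process with marginal kernel `K`, that is, the
probability distribution on the subsets of `Fin N` such that a random subset with this law contains
`S` with probability `det (K_S)`, for all `S`. -/
structure IsDPP {N : ℕ} (K : Matrix (Fin N) (Fin N) ℝ) (μ : Finset (Fin N) → ℝ) : Prop where
  nonneg : ∀ X, 0 ≤ μ X
  sum_one : ∑ X, μ X = 1
  marginal : ∀ S, ∑ X with S ⊆ X, μ X = minor K S

/-- The likelihood of the distribution `μ` on the training set `T`. -/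
def likelihood {N : ℕ} (T : List (Finset (Fin N))) (μ : Finset (Fin N) → ℝ) : ℝ :=
  (T.map μ).prod

/-- `K` is optimal for the training set `T`: it is a marginal kernel, and its likelihood is at least
that of every other marginal kernel. -/
def IsOptimal {N : ℕ} (T : List (Finset (Fin N))) (K : Matrix (Fin N) (Fin N) ℝ) : Prop :=
  IsMarginalKernel K ∧ ∃ μ, IsDPP K μ ∧
    ∀ K' μ', IsMarginalKernel K' → IsDPP K' μ' → likelihood T μ' ≤ likelihood T μ

/-- The training set: the empty set `k + 1` times, and each `k`-element subset once. -/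
def trainingSet (k : ℕ) : List (Finset (Fin (k + 1))) :=
  List.replicate (k + 1) ∅ ++ List.ofFn fun i => {i}ᶜ

/-! ### The generating function -/

/-- The rows of `s • K` for the indices in `S`, the rows of the identity for the others. -/
def mix {N : ℕ} (K : Matrix (Fin N) (Fin N) ℝ) (s : ℝ) (S : Finset (Fin N)) :
    Matrix (Fin N) (Fin N) ℝ :=
  Matrix.of fun i j => if i ∈ S then s * K i j else (1 : Matrix (Fin N) (Fin N) ℝ) i j

lemma det_smul_sub {N : ℕ} (K : Matrix (Fin N) (Fin N) ℝ) (s : ℝ) (S : Finset (Fin N))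
    (i1 : Fintype {i // i ∈ S}) (i2 : DecidableEq {i // i ∈ S}) :
    @Matrix.det {i // i ∈ S} i2 i1 ℝ _
      (s • (K.submatrix (fun i : S => (i : Fin N)) (fun i : S => (i : Fin N)))) =
        s ^ S.card * minor K S := by
  have h1 : i1 = Finset.Subtype.fintype S := Subsingleton.elim _ _
  subst h1
  have h2 : i2 = (Subtype.instDecidableEq : DecidableEq {i // i ∈ S}) := Subsingleton.elim _ _
  rw [Matrix.det_smul, Fintype.card_coe, h2]
  rfl

lemma det_mix {N : ℕ} (K : Matrix (Fin N) (Fin N) ℝ) (s : ℝ) (S : Finset (Fin N)) :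
    (mix K s S).det = s ^ S.card * minor K S := by
  rw [Matrix.twoBlockTriangular_det _ (fun i => i ∈ S)]
  · have e1 : Matrix.toSquareBlockProp (mix K s S) (fun i => i ∈ S) =
        s • (K.submatrix (fun i : S => (i : Fin N)) (fun i : S => (i : Fin N))) := by
      ext i j
      simp only [Matrix.toSquareBlockProp_def, Matrix.of_apply, Matrix.smul_apply,
        Matrix.submatrix_apply, mix, smul_eq_mul]
      rw [if_pos i.2]
    have e2 : Matrix.toSquareBlockProp (mix K s S) (fun i => ¬ i ∈ S) = 1 := by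
      ext i j
      simp only [Matrix.toSquareBlockProp_def, Matrix.of_apply, mix]
      rw [if_neg i.2]
      by_cases h : i = j
      · rw [h]
        simp
      · rw [Matrix.one_apply_ne h, Matrix.one_apply_ne (fun h' => h (Subtype.ext h'))]
    rw [e1, e2, Matrix.det_one, mul_one]
    exact det_smul_sub K s S _ _
  · intro i hi j hj
    simp only [mix, Matrix.of_apply]
    rw [if_neg hi]
    exact Matrix.one_apply_ne (fun h => hi (h ▸ hj))

lemma det_one_add_smul_eq_sum {N : ℕ} (K : Matrix (Fin N) (Fin N) ℝ) (s : ℝ) :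
    (1 + s • K).det = ∑ S : Finset (Fin N), s ^ S.card * minor K S := by
  have h1 := (Matrix.detRowAlternating (n := Fin N) (R := ℝ)).map_add_univ
    (fun i j => s * K i j) (fun i j => (1 : Matrix (Fin N) (Fin N) ℝ) i j)
  have h2 : (1 + s • K).det = Matrix.detRowAlternating
      ((fun i j => s * K i j) + (fun i j => (1 : Matrix (Fin N) (Fin N) ℝ) i j)) := by
    show _ = Matrix.det (Matrix.of fun i j => s * K i j + (1 : Matrix (Fin N) (Fin N) ℝ) i j)
    congr 1
    ext i j
    simp [add_comm]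
  rw [h2, h1]
  refine Finset.sum_congr rfl fun S _ => ?_
  rw [← det_mix]
  show Matrix.det (Matrix.of (S.piecewise (fun i j => s * K i j)
    (fun i j => (1 : Matrix (Fin N) (Fin N) ℝ) i j))) = _
  congr 1
  ext i j
  simp only [Matrix.of_apply, mix]
  by_cases h : i ∈ S
  · rw [Finset.piecewise_eq_of_mem _ _ _ h, if_pos h]
  · rw [Finset.piecewise_eq_of_notMem _ _ _ h, if_neg h]

lemma det_one_add_smul_eq_prod {N : ℕ} (K : Matrix (Fin N) (Fin N) ℝ) (hK : K.IsHermitian) (s : ℝ) :
    (1 + s • K).det = ∏ i, (1 + s * hK.eigenvalues i) := by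
  set U : Matrix (Fin N) (Fin N) ℝ := (hK.eigenvectorUnitary : Matrix (Fin N) (Fin N) ℝ) with hU
  have hUU : U * star U = 1 := Unitary.coe_mul_star_self hK.eigenvectorUnitary
  have hUU' : star U * U = 1 := Unitary.coe_star_mul_self hK.eigenvectorUnitary
  have hsp : K = U * diagonal hK.eigenvalues * star U := by
    have h := hK.spectral_theorem
    rw [Unitary.conjStarAlgAut_apply] at h
    exact h
  have h1 : 1 + s • K = U * diagonal (fun i => 1 + s * hK.eigenvalues i) * star U := by
    have e : diagonal (fun i => 1 + s * hK.eigenvalues i) =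
        (1 : Matrix (Fin N) (Fin N) ℝ) + s • diagonal hK.eigenvalues := by
      ext i j
      by_cases h : i = j
      · rw [h]
        simp
      · simp [h]
    rw [e, mul_add, add_mul, mul_one, hUU, mul_smul_comm, smul_mul_assoc, ← hsp]
  rw [h1, Matrix.det_mul_right_comm, hUU, one_mul, Matrix.det_diagonal]

/-- The generating function of the number of points. -/
lemma gen_fun {N : ℕ} {K : Matrix (Fin N) (Fin N) ℝ} (hK : K.IsHermitian)
    {μ : Finset (Fin N) → ℝ} (hμ : IsDPP K μ) (t : ℝ) :
    ∑ X, μ X * t ^ X.card = ∏ i, (1 + (t - 1) * hK.eigenvalues i) := by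
  rw [← det_one_add_smul_eq_prod K hK, det_one_add_smul_eq_sum]
  have h1 : ∀ X : Finset (Fin N), t ^ X.card = ∑ S ∈ X.powerset, (t - 1) ^ S.card := by
    intro X
    have := Finset.sum_pow_mul_eq_add_pow (t - 1) 1 X
    simp only [one_pow, mul_one, sub_add_cancel] at this
    exact this.symm
  calc ∑ X, μ X * t ^ X.card = ∑ X : Finset (Fin N), ∑ S : Finset (Fin N),
        (if S ⊆ X then (t - 1) ^ S.card * μ X else 0) := by
        refine Finset.sum_congr rfl fun X _ => ?_
        rw [h1, Finset.mul_sum, ← Finset.sum_filter]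
        refine Finset.sum_congr ?_ fun S _ => mul_comm _ _
        ext S
        simp
    _ = ∑ S : Finset (Fin N), (t - 1) ^ S.card * minor K S := by
        rw [Finset.sum_comm]
        refine Finset.sum_congr rfl fun S _ => ?_
        rw [← hμ.marginal S, Finset.mul_sum, Finset.sum_filter]

/-! ### Kernels of rank at most `k` -/

/-- The inequality between the arithmetic and the geometric mean. -/
lemma prod_le_mean_pow {n : ℕ} (x : Fin (n + 1) → ℝ) (hx : ∀ i, 0 ≤ x i) :
    ∏ i, x i ≤ ((∑ i, x i) / (n + 1)) ^ (n + 1) := by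
  set s := (∑ i, x i) / ((n : ℝ) + 1) with hs
  have hn : (0 : ℝ) < (n : ℝ) + 1 := by positivity
  have hs0 : 0 ≤ s := div_nonneg (Finset.sum_nonneg fun i _ => hx i) hn.le
  rcases hs0.eq_or_lt with h | h
  · have h1 : ∑ i, x i = 0 := by
      have : (∑ i, x i) = s * ((n : ℝ) + 1) := by
        rw [hs]
        field_simp
      rw [this, ← h, zero_mul]
    have h2 := (Finset.sum_eq_zero_iff_of_nonneg (fun i _ => hx i)).1 h1 0 (Finset.mem_univ _)
    rw [Finset.prod_eq_zero (Finset.mem_univ (0 : Fin (n + 1))) h2, ← h]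
    simp
  · have h1 : ∏ i, (x i / s) ≤ 1 := by
      calc ∏ i, (x i / s) ≤ ∏ i, Real.exp (x i / s - 1) := by
            refine Finset.prod_le_prod (fun i _ => div_nonneg (hx i) hs0) fun i _ => ?_
            have := Real.add_one_le_exp (x i / s - 1)
            linarith
        _ = Real.exp (∑ i, (x i / s - 1)) := (Real.exp_sum _ _).symm
        _ = 1 := by
            have : ∑ i, (x i / s - 1) = 0 := by
              rw [Finset.sum_sub_distrib, ← Finset.sum_div]
              have h3 : (∑ i, x i) = s * ((n : ℝ) + 1) := by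
                rw [hs]
                field_simp
              rw [h3, mul_comm s, mul_div_assoc, div_self h.ne']
              simp
            rw [this, Real.exp_zero]
    have h2 : ∏ i, (x i / s) = (∏ i, x i) / s ^ (n + 1) := by
      rw [Finset.prod_div_distrib, Finset.prod_const, Finset.card_univ, Fintype.card_fin]
    rw [h2, div_le_one (by positivity)] at h1
    exact h1

lemma likelihood_trainingSet (k : ℕ) (μ : Finset (Fin (k + 1)) → ℝ) :
    likelihood (trainingSet k) μ = μ ∅ ^ (k + 1) * ∏ i : Fin (k + 1), μ {i}ᶜ := by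
  unfold likelihood trainingSet
  rw [List.map_append, List.prod_append, List.map_replicate, List.prod_replicate, List.map_ofFn,
    List.prod_ofFn]
  rfl

open Polynomial in
/-- If `K` is singular, then its law satisfies `μ(∅) μ(k points) ≤ 4⁻ᵏ`. -/
lemma empty_mul_le {k : ℕ} {K : Matrix (Fin (k + 1)) (Fin (k + 1)) ℝ} (hK : IsMarginalKernel K)
    {μ : Finset (Fin (k + 1)) → ℝ} (hμ : IsDPP K μ) (hdet : K.det = 0) :
    μ ∅ * ∑ i : Fin (k + 1), μ {i}ᶜ ≤ (1 / 4) ^ k := by
  obtain ⟨hH, he⟩ := hK
  have hgen := gen_fun hH hμ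
  -- a zero eigenvalue
  obtain ⟨i0, hi0⟩ : ∃ i0, hH.eigenvalues i0 = 0 := by
    have h := hH.det_eq_prod_eigenvalues
    rw [hdet] at h
    have h2 : ∏ i, hH.eigenvalues i = 0 := by
      have := h.symm
      simpa using this
    obtain ⟨i, _, hi⟩ := Finset.prod_eq_zero_iff.1 h2
    exact ⟨i, hi⟩
  set l := hH.eigenvalues with hl
  -- the value at `0`
  have h0 : μ ∅ = ∏ i ∈ Finset.univ.erase i0, (1 - l i) := by
    have h1 := hgen 0
    have h2 : ∑ X, μ X * (0 : ℝ) ^ X.card = μ ∅ := by
      rw [Finset.sum_eq_single ∅]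
      · simp
      · intro X _ hX
        rw [zero_pow (by rwa [Ne, Finset.card_eq_zero]), mul_zero]
      · intro h
        exact absurd (Finset.mem_univ _) h
    rw [h2] at h1
    rw [h1, ← Finset.mul_prod_erase _ _ (Finset.mem_univ i0), hi0]
    simp only [mul_zero, add_zero, one_mul]
    exact Finset.prod_congr rfl fun i _ => by ring
  -- the coefficient of `t ^ k`
  have hk : ∑ X with X.card = k, μ X = ∏ i ∈ Finset.univ.erase i0, l i := by
    have hpoly : (∑ Y : Finset (Fin (k + 1)), C (μ Y) * (X : ℝ[X]) ^ Y.card) =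
        ∏ i ∈ Finset.univ.erase i0, (C (1 - l i) + C (l i) * (X : ℝ[X])) := by
      refine Polynomial.funext fun t => ?_
      have h1 := hgen t
      rw [← Finset.mul_prod_erase _ _ (Finset.mem_univ i0), hi0] at h1
      simp only [mul_zero, add_zero, one_mul] at h1
      rw [Polynomial.eval_finsetSum, Polynomial.eval_prod]
      simp only [eval_mul, eval_C, eval_pow, eval_X, eval_add]
      rw [h1]
      exact Finset.prod_congr rfl fun i _ => by ring
    have hc : (Finset.univ.erase i0).card = k := by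
      rw [Finset.card_erase_of_mem (Finset.mem_univ _), Finset.card_univ, Fintype.card_fin]
      rfl
    have h2 := congrArg (fun p : ℝ[X] => p.coeff ((Finset.univ.erase i0).card * 1)) hpoly
    rw [Polynomial.coeff_prod_of_natDegree_le, hc, Polynomial.finsetSum_coeff] at h2
    · simp only [coeff_C_mul, coeff_X_pow, mul_one] at h2
      rw [Finset.sum_filter]
      have h3 : ∀ i ∈ Finset.univ.erase i0, (C (1 - l i) + C (l i) * (X : ℝ[X])).coeff 1 = l i := by
        intro i _
        rw [coeff_add, coeff_C, coeff_C_mul, coeff_X]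
        simp
      rw [Finset.prod_congr rfl h3] at h2
      rw [← h2]
      refine Finset.sum_congr rfl fun Y _ => ?_
      by_cases h4 : Y.card = k
      · rw [if_pos h4, if_pos h4.symm, mul_one]
      · rw [if_neg h4, if_neg (Ne.symm h4), mul_zero]
    · intro i _
      refine (Polynomial.natDegree_add_le _ _).trans ?_
      rw [natDegree_C]
      refine max_le (by norm_num) ((natDegree_C_mul_le _ _).trans ?_)
      exact natDegree_X_le
  have hsub : ∑ i : Fin (k + 1), μ {i}ᶜ ≤ ∑ X with X.card = k, μ X := by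
    have hinj : Function.Injective (fun i : Fin (k + 1) => ({i}ᶜ : Finset (Fin (k + 1)))) := by
      intro i j h
      have h' : ({i}ᶜ : Finset (Fin (k + 1))) = {j}ᶜ := h
      rw [compl_inj_iff, Finset.singleton_inj] at h'
      exact h'
    rw [← Finset.sum_image (f := μ) (g := fun i : Fin (k + 1) => ({i}ᶜ : Finset (Fin (k + 1))))
      (fun i _ j _ h => hinj h)]
    refine Finset.sum_le_sum_of_subset_of_nonneg ?_ fun X _ _ => hμ.nonneg X
    intro X hX
    obtain ⟨i, _, rfl⟩ := Finset.mem_image.1 hX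
    rw [Finset.mem_filter]
    refine ⟨Finset.mem_univ _, ?_⟩
    rw [Finset.card_compl, Finset.card_singleton, Fintype.card_fin]
    rfl
  calc μ ∅ * ∑ i : Fin (k + 1), μ {i}ᶜ ≤ μ ∅ * ∑ X with X.card = k, μ X :=
        mul_le_mul_of_nonneg_left hsub (hμ.nonneg _)
    _ = ∏ i ∈ Finset.univ.erase i0, ((1 - l i) * l i) := by
        rw [h0, hk, Finset.prod_mul_distrib]
    _ ≤ ∏ i ∈ Finset.univ.erase i0, (1 / 4 : ℝ) := by
        refine Finset.prod_le_prod (fun i _ => ?_) fun i _ => ?_
        · exact mul_nonneg (by linarith [(he i).2]) (he i).1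
        · nlinarith [sq_nonneg (l i - 1 / 2)]
    _ = (1 / 4) ^ k := by
        rw [Finset.prod_const, Finset.card_erase_of_mem (Finset.mem_univ _), Finset.card_univ,
          Fintype.card_fin]
        rfl

/-- The likelihood of a singular kernel. -/
lemma likelihood_le {k : ℕ} {K : Matrix (Fin (k + 1)) (Fin (k + 1)) ℝ} (hK : IsMarginalKernel K)
    {μ : Finset (Fin (k + 1)) → ℝ} (hμ : IsDPP K μ) (hdet : K.det = 0) :
    likelihood (trainingSet k) μ ≤ ((1 / 4) ^ k / (k + 1)) ^ (k + 1) := by
  rw [likelihood_trainingSet]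
  have h1 := prod_le_mean_pow (fun i : Fin (k + 1) => μ {i}ᶜ) (fun i => hμ.nonneg _)
  have h2 := empty_mul_le hK hμ hdet
  have h3 := hμ.nonneg ∅
  calc μ ∅ ^ (k + 1) * ∏ i : Fin (k + 1), μ {i}ᶜ
      ≤ μ ∅ ^ (k + 1) * ((∑ i : Fin (k + 1), μ {i}ᶜ) / (k + 1)) ^ (k + 1) :=
        mul_le_mul_of_nonneg_left h1 (by positivity)
    _ = (μ ∅ * (∑ i : Fin (k + 1), μ {i}ᶜ) / (k + 1)) ^ (k + 1) := by
        rw [← mul_pow, mul_div_assoc]
    _ ≤ ((1 / 4) ^ k / (k + 1)) ^ (k + 1) := by
        have h4 : 0 ≤ ∑ i : Fin (k + 1), μ {i}ᶜ := Finset.sum_nonneg fun i _ => hμ.nonneg _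
        refine pow_le_pow_left₀ (by positivity) ?_ _
        exact div_le_div_of_nonneg_right h2 (by positivity)

/-! ### The kernel `p I` -/

lemma minor_smul_one {N : ℕ} (p : ℝ) (S : Finset (Fin N)) :
    minor (p • (1 : Matrix (Fin N) (Fin N) ℝ)) S = p ^ S.card := by
  unfold minor
  have : (p • (1 : Matrix (Fin N) (Fin N) ℝ)).submatrix (fun i : S => (i : Fin N))
      (fun i : S => (i : Fin N)) = p • 1 := by
    ext i j
    by_cases h : i = j
    · simp [h]
    · have : (i : Fin N) ≠ j := fun h' => h (Subtype.ext h')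
      simp [h, this]
  rw [this, Matrix.det_smul, Matrix.det_one, mul_one, Fintype.card_coe]

lemma isDPP_smul_one {N : ℕ} (p : ℝ) (h0 : 0 ≤ p) (h1 : p ≤ 1) :
    IsDPP (p • (1 : Matrix (Fin N) (Fin N) ℝ)) (fun X => p ^ X.card * (1 - p) ^ (N - X.card)) := by
  have key : ∀ S : Finset (Fin N), ∑ X with S ⊆ X, p ^ X.card * (1 - p) ^ (N - X.card) =
      p ^ S.card := by
    intro S
    have e : ∑ X with S ⊆ X, p ^ X.card * (1 - p) ^ (N - X.card) =
        ∑ Y ∈ (Sᶜ).powerset, p ^ S.card * (p ^ Y.card * (1 - p) ^ ((Sᶜ).card - Y.card)) := by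
      refine Finset.sum_nbij' (fun X => X \ S) (fun Y => S ∪ Y) ?_ ?_ ?_ ?_ ?_
      · intro X _
        rw [Finset.mem_powerset]
        intro x hx
        rw [Finset.mem_compl]
        exact (Finset.mem_sdiff.1 hx).2
      · intro Y _
        rw [Finset.mem_filter]
        exact ⟨Finset.mem_univ _, Finset.subset_union_left⟩
      · intro X hX
        exact Finset.union_sdiff_of_subset (Finset.mem_filter.1 hX).2
      · intro Y hY
        have : Disjoint S Y := by
          rw [Finset.disjoint_left]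
          intro x hx hy
          exact (Finset.mem_compl.1 (Finset.mem_powerset.1 hY hy)) hx
        show (S ∪ Y) \ S = Y
        rw [Finset.union_sdiff_cancel_left this]
      · intro X hX
        have hS := (Finset.mem_filter.1 hX).2
        have hc1 : (X \ S).card = X.card - S.card := Finset.card_sdiff_of_subset hS
        have hc2 : S.card ≤ X.card := Finset.card_le_card hS
        have hc3 : (Sᶜ).card = N - S.card := by rw [Finset.card_compl, Fintype.card_fin]
        have hc4 : X.card ≤ N := by simpa using Finset.card_le_univ X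
        rw [hc1, hc3, ← mul_assoc, ← pow_add]
        congr 2
        · omega
        · omega
    rw [e, ← Finset.mul_sum, Finset.sum_pow_mul_eq_add_pow, add_sub_cancel, one_pow, mul_one]
  refine ⟨fun X => ?_, ?_, fun S => ?_⟩
  · have : 0 ≤ 1 - p := by linarith
    positivity
  · have := key ∅
    simpa using this
  · rw [minor_smul_one]
    exact key S

lemma isMarginalKernel_iff {N : ℕ} (K : Matrix (Fin N) (Fin N) ℝ) :
    IsMarginalKernel K ↔ K.IsHermitian ∧ (∀ x, 0 ≤ x ⬝ᵥ (K *ᵥ x)) ∧
      ∀ x, x ⬝ᵥ (K *ᵥ x) ≤ x ⬝ᵥ x := by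
  constructor
  · rintro ⟨hK, he⟩
    refine ⟨hK, ?_, ?_⟩
    · have h : K.PosSemidef := hK.posSemidef_iff_eigenvalues_nonneg.2 fun i => (he i).1
      exact fun x => h.dotProduct_mulVec_nonneg x
    · have h : (1 - K).PosSemidef := by
        have hsp : 1 - K = Unitary.conjStarAlgAut ℝ _ hK.eigenvectorUnitary
            (diagonal fun i => 1 - hK.eigenvalues i) := by
          have e : (diagonal fun i => 1 - hK.eigenvalues i) =
              (1 : Matrix (Fin N) (Fin N) ℝ) - diagonal (RCLike.ofReal ∘ hK.eigenvalues) := by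
            ext i j
            by_cases h : i = j
            · rw [h]
              simp
            · simp [h]
          rw [e, map_sub, map_one, ← hK.spectral_theorem]
        rw [hsp, Unitary.conjStarAlgAut_apply]
        have hd : (diagonal fun i => 1 - hK.eigenvalues i).PosSemidef :=
          Matrix.PosSemidef.diagonal fun i => by
            have := (he i).2
            show 0 ≤ 1 - hK.eigenvalues i
            linarith
        exact hd.mul_mul_conjTranspose_same _
      intro x
      have h1 : 0 ≤ x ⬝ᵥ ((1 - K) *ᵥ x) := h.dotProduct_mulVec_nonneg x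
      rw [Matrix.sub_mulVec, Matrix.one_mulVec, dotProduct_sub] at h1
      linarith
  · rintro ⟨hK, h1, h2⟩
    refine ⟨hK, fun i => ?_⟩
    have e := hK.eigenvalues_eq i
    have e2 : (star (hK.eigenvectorBasis i : Fin N → ℝ)) ⬝ᵥ (hK.eigenvectorBasis i : Fin N → ℝ) =
        1 := by
      rw [dotProduct_comm, ← EuclideanSpace.inner_eq_star_dotProduct, inner_self_eq_norm_sq_to_K,
        hK.eigenvectorBasis.orthonormal.1 i]
      simp
    rw [e]
    refine ⟨?_, ?_⟩
    · exact h1 _
    · refine (h2 _).trans (le_of_eq ?_)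
      exact e2

lemma isMarginalKernel_smul_one {N : ℕ} (p : ℝ) (h0 : 0 ≤ p) (h1 : p ≤ 1) :
    IsMarginalKernel (p • (1 : Matrix (Fin N) (Fin N) ℝ)) := by
  rw [isMarginalKernel_iff]
  have e : ∀ x : Fin N → ℝ, 0 ≤ x ⬝ᵥ x := fun x =>
    Finset.sum_nonneg fun i _ => mul_self_nonneg _
  refine ⟨?_, fun x => ?_, fun x => ?_⟩
  · ext i j
    by_cases h : i = j
    · simp [h]
    · simp [h, Ne.symm h]
  · rw [Matrix.smul_mulVec, Matrix.one_mulVec, dotProduct_smul, smul_eq_mul]
    exact mul_nonneg h0 (e x)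
  · rw [Matrix.smul_mulVec, Matrix.one_mulVec, dotProduct_smul, smul_eq_mul]
    nlinarith [e x]

/-! ### Existence of an optimal kernel -/

lemma quad_single {N : ℕ} (K : Matrix (Fin N) (Fin N) ℝ) (i j : Fin N) (c : ℝ) :
    (Pi.single i 1 + Pi.single j c : Fin N → ℝ) ⬝ᵥ (K *ᵥ (Pi.single i 1 + Pi.single j c)) =
      K i i + c * K i j + c * K j i + c ^ 2 * K j j := by
  rw [Matrix.mulVec_add, dotProduct_add, add_dotProduct, add_dotProduct]
  simp only [Matrix.mulVec_single, single_dotProduct]
  simp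
  ring

lemma entry_mem {N : ℕ} {K : Matrix (Fin N) (Fin N) ℝ} (hK : IsMarginalKernel K) (i j : Fin N) :
    K i j ∈ Set.Icc (-1 : ℝ) 1 := by
  obtain ⟨hH, h1, h2⟩ := (isMarginalKernel_iff K).1 hK
  have hsym : K j i = K i j := by
    have := hH.apply i j
    simpa using this
  have hd : ∀ i, K i i ≤ 1 := by
    intro i
    have h3 := h2 (Pi.single i 1 + Pi.single i 0)
    rw [quad_single] at h3
    have h4 : (Pi.single i 1 + Pi.single i 0 : Fin N → ℝ) ⬝ᵥ (Pi.single i 1 + Pi.single i 0) = 1 := by
      simp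
    rw [h4] at h3
    linarith
  have h3 := h1 (Pi.single i 1 + Pi.single j 1)
  have h4 := h1 (Pi.single i 1 + Pi.single j (-1))
  rw [quad_single] at h3 h4
  have h5 := hd i
  have h6 := hd j
  constructor <;> linarith

lemma isDPP_le_one {N : ℕ} {K : Matrix (Fin N) (Fin N) ℝ} {μ : Finset (Fin N) → ℝ}
    (hμ : IsDPP K μ) (X : Finset (Fin N)) : μ X ∈ Set.Icc (0 : ℝ) 1 :=
  ⟨hμ.nonneg X, by
    rw [← hμ.sum_one]
    exact Finset.single_le_sum (f := μ) (fun X _ => hμ.nonneg X) (Finset.mem_univ X)⟩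

/-- The pairs of a marginal kernel and the law of its determinantal point process. -/
def pairs (N : ℕ) : Set ((Fin N → Fin N → ℝ) × (Finset (Fin N) → ℝ)) :=
  {q | IsMarginalKernel (Matrix.of q.1) ∧ IsDPP (Matrix.of q.1) q.2}

lemma isCompact_pairs (N : ℕ) : IsCompact (pairs N) := by
  have hof : Continuous (fun q : (Fin N → Fin N → ℝ) × (Finset (Fin N) → ℝ) =>
      (Matrix.of q.1 : Matrix (Fin N) (Fin N) ℝ)) := continuous_fst
  have hquad : ∀ x : Fin N → ℝ, Continuous (fun q : (Fin N → Fin N → ℝ) × (Finset (Fin N) → ℝ) =>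
      x ⬝ᵥ ((Matrix.of q.1 : Matrix (Fin N) (Fin N) ℝ) *ᵥ x)) := by
    intro x
    exact continuous_const.dotProduct (hof.matrix_mulVec continuous_const)
  have hclosed : IsClosed (pairs N) := by
    have e : pairs N = {q | (Matrix.of q.1 : Matrix (Fin N) (Fin N) ℝ)ᴴ = Matrix.of q.1} ∩
        ((⋂ x : Fin N → ℝ, {q | 0 ≤ x ⬝ᵥ ((Matrix.of q.1 : Matrix (Fin N) (Fin N) ℝ) *ᵥ x)}) ∩
        ((⋂ x : Fin N → ℝ, {q | x ⬝ᵥ ((Matrix.of q.1 : Matrix (Fin N) (Fin N) ℝ) *ᵥ x) ≤ x ⬝ᵥ x}) ∩
        ((⋂ X : Finset (Fin N), {q | 0 ≤ q.2 X}) ∩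
        ({q | ∑ X, q.2 X = 1} ∩
        (⋂ S : Finset (Fin N), {q | ∑ X with S ⊆ X, q.2 X = minor (Matrix.of q.1) S}))))) := by
      ext q
      simp only [pairs, Set.mem_inter_iff, Set.mem_iInter, Set.mem_ofPred_eq, isMarginalKernel_iff]
      constructor
      · rintro ⟨⟨a, b, c⟩, d⟩
        exact ⟨a, b, c, d.nonneg, d.sum_one, d.marginal⟩
      · rintro ⟨a, b, c, d, e, f⟩
        exact ⟨⟨a, b, c⟩, ⟨d, e, f⟩⟩
    rw [e]
    refine IsClosed.inter ?_ (IsClosed.inter ?_ (IsClosed.inter ?_ (IsClosed.inter ?_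
      (IsClosed.inter ?_ ?_))))
    · exact isClosed_eq hof.matrix_conjTranspose hof
    · exact isClosed_iInter fun x => isClosed_le continuous_const (hquad x)
    · exact isClosed_iInter fun x => isClosed_le (hquad x) continuous_const
    · exact isClosed_iInter fun X => isClosed_le continuous_const
        ((continuous_apply X).comp continuous_snd)
    · exact isClosed_eq (continuous_finsetSum _ fun X _ =>
        (continuous_apply X).comp continuous_snd) continuous_const
    · refine isClosed_iInter fun S => isClosed_eq (continuous_finsetSum _ fun X _ =>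
        (continuous_apply X).comp continuous_snd) ?_
      unfold minor
      exact (hof.matrix_submatrix _ _).matrix_det
  have hsub : pairs N ⊆ (Set.univ.pi fun _ : Fin N => Set.univ.pi fun _ : Fin N =>
      Set.Icc (-1 : ℝ) 1) ×ˢ (Set.univ.pi fun _ : Finset (Fin N) => Set.Icc (0 : ℝ) 1) := by
    rintro q ⟨h1, h2⟩
    refine ⟨fun i _ j _ => entry_mem h1 i j, fun X _ => isDPP_le_one h2 X⟩
  exact IsCompact.of_isClosed_subset ((isCompact_univ_pi fun _ => isCompact_univ_pi fun _ =>
    isCompact_Icc).prod (isCompact_univ_pi fun _ => isCompact_Icc)) hclosed hsub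

lemma exists_optimal {N : ℕ} (T : List (Finset (Fin N))) :
    ∃ K : Matrix (Fin N) (Fin N) ℝ, IsOptimal T K := by
  have hne : (pairs N).Nonempty :=
    ⟨(fun i j => ((1 / 2 : ℝ) • (1 : Matrix (Fin N) (Fin N) ℝ)) i j, _),
      isMarginalKernel_smul_one (1 / 2) (by norm_num) (by norm_num),
      isDPP_smul_one (1 / 2) (by norm_num) (by norm_num)⟩
  have hcont : Continuous (fun q : (Fin N → Fin N → ℝ) × (Finset (Fin N) → ℝ) =>
      likelihood T q.2) := by
    unfold likelihood
    induction T with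
    | nil => simpa using continuous_const
    | cons X T ih =>
      simp only [List.map_cons, List.prod_cons]
      exact ((continuous_apply X).comp continuous_snd).mul ih
  obtain ⟨q, hq, hmax⟩ := (isCompact_pairs N).exists_isMaxOn hne hcont.continuousOn
  refine ⟨Matrix.of q.1, hq.1, q.2, hq.2, fun K' μ' hK' hμ' => ?_⟩
  exact hmax (show ((fun i j => K' i j, μ') : (Fin N → Fin N → ℝ) × (Finset (Fin N) → ℝ)) ∈ pairs N
    from ⟨hK', hμ'⟩)

/-! ### The numerical inequality -/

/-- `(n² - 1)ⁿ⁻¹ (n + 1)² > 4 n²ⁿ⁻¹` for `n = k + 1 ≥ 3`, in the form which is needed. -/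
lemma numeric (k : ℕ) (hk : 2 ≤ k) :
    (1 / 4 : ℝ) ^ k / (k + 1) <
      (1 - (k : ℝ) / (2 * k + 2)) ^ (k + 1) *
        (((k : ℝ) / (2 * k + 2)) ^ k * (1 - (k : ℝ) / (2 * k + 2))) := by
  set n : ℝ := (k : ℝ) + 1 with hn
  have hk' : (2 : ℝ) ≤ k := by exact_mod_cast hk
  have hn3 : 3 ≤ n := by linarith
  have hn0 : 0 < n := by linarith
  have e1 : (1 : ℝ) - (k : ℝ) / (2 * k + 2) = (n + 1) / (2 * n) := by
    rw [hn]
    field_simp
    ring
  have e2 : (k : ℝ) / (2 * k + 2) = (n - 1) / (2 * n) := by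
    rw [hn]
    field_simp
    ring
  rw [e1, e2]
  -- Bernoulli
  have hb : 1 - k * (1 / n ^ 2) ≤ (1 - 1 / n ^ 2) ^ k := by
    have h := one_add_mul_le_pow (a := -(1 / n ^ 2)) (by
      have : 1 / n ^ 2 ≤ 1 := by
        rw [div_le_one (by positivity)]
        nlinarith
      linarith) k
    have e : (1 : ℝ) + k * -(1 / n ^ 2) = 1 - k * (1 / n ^ 2) := by ring
    have e' : (1 : ℝ) + -(1 / n ^ 2) = 1 - 1 / n ^ 2 := by ring
    rwa [e, e'] at h
  have e3 : ((n + 1) / (2 * n)) ^ (k + 1) * (((n - 1) / (2 * n)) ^ k * ((n + 1) / (2 * n))) =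
      (1 / 4) ^ k * ((1 - 1 / n ^ 2) ^ k * ((n + 1) / (2 * n)) ^ 2) := by
    have : (1 : ℝ) / 4 * (1 - 1 / n ^ 2) = ((n + 1) / (2 * n)) * ((n - 1) / (2 * n)) := by
      field_simp
      ring
    rw [← mul_assoc ((1 / 4 : ℝ) ^ k), ← mul_pow, this, mul_pow]
    ring
  rw [e3, div_eq_mul_inv]
  refine mul_lt_mul_of_pos_left ?_ (by positivity)
  have h2 : (1 - k * (1 / n ^ 2)) * ((n + 1) / (2 * n)) ^ 2 ≤
      (1 - 1 / n ^ 2) ^ k * ((n + 1) / (2 * n)) ^ 2 :=
    mul_le_mul_of_nonneg_right hb (by positivity)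
  refine lt_of_lt_of_le ?_ h2
  have hkn : (k : ℝ) = n - 1 := by
    rw [hn]
    ring
  rw [hkn]
  have e4 : (1 - (n - 1) * (1 / n ^ 2)) * ((n + 1) / (2 * n)) ^ 2 =
      (n ^ 3 + 1) * (n + 1) / (4 * n ^ 4) := by
    field_simp
    ring
  rw [e4, inv_eq_one_div, div_lt_div_iff₀ hn0 (by positivity)]
  nlinarith [pow_pos hn0 2, pow_pos hn0 3, pow_pos hn0 4, pow_pos hn0 5,
    mul_nonneg (pow_pos hn0 4).le (sub_nonneg.2 hn3)]

/-- For every `k ≥ 2` there is a training set of subsets of a ground set of `k + 1` elements, all of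
them with at most `k` elements, for which every optimal marginal kernel has rank `k + 1`. -/
theorem result (k : ℕ) (hk : 2 ≤ k) :
    (∀ X ∈ trainingSet k, X.card ≤ k) ∧ (∃ K, IsOptimal (trainingSet k) K) ∧
      ∀ K, IsOptimal (trainingSet k) K → K.rank = k + 1 := by
  refine ⟨?_, exists_optimal _, ?_⟩
  · intro X hX
    unfold trainingSet at hX
    rw [List.mem_append] at hX
    rcases hX with hX | hX
    · rw [(List.mem_replicate.1 hX).2]
      simp
    · rw [List.mem_ofFn] at hX
      obtain ⟨i, rfl⟩ := hX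
      rw [Finset.card_compl, Finset.card_singleton, Fintype.card_fin]
      exact le_of_eq rfl
  · rintro K ⟨hK, μ, hμ, hmax⟩
    by_contra hrank
    have hdet : K.det = 0 := by
      by_contra hdet
      apply hrank
      have hu : IsUnit K := by
        rw [Matrix.isUnit_iff_isUnit_det]
        exact isUnit_iff_ne_zero.2 hdet
      rw [Matrix.rank_of_isUnit K hu, Fintype.card_fin]
    have h1 := likelihood_le hK hμ hdet
    have hk' : (2 : ℝ) ≤ k := by exact_mod_cast hk
    have hp0 : (0 : ℝ) ≤ (k : ℝ) / (2 * k + 2) := by positivity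
    have hp1 : (k : ℝ) / (2 * k + 2) ≤ 1 := by
      rw [div_le_one (by positivity)]
      linarith
    have h2 := hmax _ _ (isMarginalKernel_smul_one (N := k + 1) _ hp0 hp1)
      (isDPP_smul_one (N := k + 1) _ hp0 hp1)
    rw [likelihood_trainingSet] at h2
    set p : ℝ := (k : ℝ) / (2 * k + 2) with hp
    have h3 : ∏ i : Fin (k + 1), p ^ (({i}ᶜ : Finset (Fin (k + 1)))).card *
        (1 - p) ^ (k + 1 - (({i}ᶜ : Finset (Fin (k + 1)))).card) = (p ^ k * (1 - p)) ^ (k + 1) := by
      have : ∀ i : Fin (k + 1), p ^ (({i}ᶜ : Finset (Fin (k + 1)))).card *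
        (1 - p) ^ (k + 1 - (({i}ᶜ : Finset (Fin (k + 1)))).card) = p ^ k * (1 - p) := by
        intro i
        have hc : (({i}ᶜ : Finset (Fin (k + 1)))).card = k := by
          rw [Finset.card_compl, Finset.card_singleton, Fintype.card_fin]
          rfl
        rw [hc, Nat.add_sub_cancel_left, pow_one]
      simp only [this, Finset.prod_const, Finset.card_univ, Fintype.card_fin]
    rw [h3] at h2
    simp only [Finset.card_empty, pow_zero, one_mul, Nat.sub_zero] at h2
    rw [← mul_pow] at h2
    have h4 := numeric k hk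
    have h5 := pow_lt_pow_left₀ h4 (by positivity) (Nat.succ_ne_zero k)
    have h6 := h2.trans h1
    exact absurd h5 (not_lt.2 h6)

end Pool.Agent.Results.MP_dbbe21_pr.RankTooLarge
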